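import Pool.Agent.Lib.H31P.Fin

/-!
# At most `N^(2/5+ε)` of the `n ≤ N` take part in a coincidence `π(m^2)/m^2 = π(n^2)/n^2`

Method (`Pool/Agent/Lib/H31P`, with `PROOF.md`): a coincidence forces `|m - n| ≤ n^(1/6+ε)`; the least `d`
such that the denominator of the common value divides `d^2` divides `m` and `n`, so it is at most `|m - n|`
and two different common values cannot be close together; the number of common values whose class has
diameter about `L` is at most `N^(2/3+ε)/L^2` by the measure of the set of short intervals with too many primes.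
-/

namespace Pool.Agent.Results.MP_da1588_nt.Coincidences

/-- `r n = π(n^2)/n^2`, where `π(k)` is the number of primes `p ≤ k`. -/
noncomputable def r (n : ℕ) : ℝ := (Nat.primeCounting (n ^ 2) : ℝ) / (n : ℝ) ^ 2

open Classical in
/-- For every `ε > 0` and all large `N` at most `N^(2/5+ε)` of the `n` with `1 ≤ n ≤ N` have a partner
`m ≥ 1`, `m ≠ n`, with `r m = r n`. -/
theorem result : ∀ ε : ℝ, 0 < ε → ∃ N₀ : ℕ, ∀ N : ℕ, N₀ ≤ N →
    (((Finset.Icc 1 N).filter (fun n => ∃ m : ℕ, 1 ≤ m ∧ m ≠ n ∧ r m = r n)).card : ℝ) ≤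
      (N : ℝ) ^ (2 / 5 + ε) :=
  Pool.Agent.Lib.H31P.coF

end Pool.Agent.Results.MP_da1588_nt.Coincidences
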