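import Pool.Agent.Lib.H31P.Fin
import Pool.Agent.Lib.PNT.PNT

/-!
# A divisor criterion for coincidences `π(m^2)/m^2 = π(n^2)/n^2`

Let `r n = π(n^2)/n^2`. We prove: for every `ε > 0` there is `n₀` such that for all `n ≥ n₀` and all `m ≥ 1`
with `m ≠ n` and `r m = r n` the number `g = gcd(m, n)` satisfies `(2 - ε) log n ≤ g^2` and
`g ≤ |m - n| ≤ n^(1/6+ε)`, and for one natural number `u` one has `π(n^2) = (n/g)^2 u` and
`π(m^2) = (m/g)^2 u`. So `r n` is different from all other `r m` if `n` is large and has no divisor `g`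
with `(2 - ε) log n ≤ g^2`, `g ≤ n^(1/6+ε)` and `(n/g)^2 ∣ π(n^2)`; for instance if `n` is a large prime, or
a product of primes `> n^(1/6+ε)`, or `n = c p` with `p` prime and `c^2 < (2 - ε) log n`.

Proof. The upper bound for `|m - n|` is `H31P.winF` (Heath-Brown's identity, large values of Dirichlet
polynomials, the zero-free region of Vinogradov and Korobov). From `π(m^2) n^2 = π(n^2) m^2` and the
coprimality of `m/g` and `n/g` one gets `u`; `u ≥ 1` gives `g^2 π(n^2) ≥ n^2`, and the lower bound for `g^2`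
follows from the prime number theorem.
-/

open Filter

namespace Pool.Agent.Results.MP_da1588_nt.DivisorCriterion

/-- `r n = π(n^2)/n^2`, where `π(k)` is the number of primes `p ≤ k`. -/
noncomputable def r (n : ℕ) : ℝ := (Nat.primeCounting (n ^ 2) : ℝ) / (n : ℝ) ^ 2

private theorem pi_pos' {n : ℕ} (hn : 2 ≤ n) : 0 < Nat.primeCounting (n ^ 2) := by
  have h1 : Nat.primeCounting 2 ≤ Nat.primeCounting (n ^ 2) :=
    Nat.monotone_primeCounting (by nlinarith)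
  have h2 : Nat.primeCounting 2 = 1 := by decide
  omega

private theorem r_pos' {n : ℕ} (hn : 2 ≤ n) : 0 < r n := by
  have h1 : (0 : ℝ) < n := by exact_mod_cast (by omega : 0 < n)
  have h0 : (0 : ℝ) < (n : ℝ) ^ 2 := by positivity
  exact div_pos (by exact_mod_cast pi_pos' hn) h0

private theorem pnt_upper {δ : ℝ} (hδ : 0 < δ) : ∃ n₀ : ℕ, ∀ n : ℕ, n₀ ≤ n →
    (Nat.primeCounting (n ^ 2) : ℝ) * (2 * Real.log n) ≤ (1 + δ) * (n : ℝ) ^ 2 := by
  have h := Pool.Agent.Lib.PNT.primeCounting_nat_tendsto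
  have h2 : Tendsto (fun n : ℕ => n ^ 2) atTop atTop := tendsto_pow_atTop (by norm_num)
  have h3 := (h.comp h2).eventually_le_const (show (1 : ℝ) < 1 + δ by linarith)
  obtain ⟨n₀, hn₀⟩ := eventually_atTop.1 h3
  refine ⟨max n₀ 1, fun n hn => ?_⟩
  have h4 := hn₀ n (le_trans (le_max_left _ _) hn)
  have hn1 : 1 ≤ n := le_trans (le_max_right _ _) hn
  have h6 : (0 : ℝ) < n := by exact_mod_cast hn1
  have h5 : (0 : ℝ) < (n : ℝ) ^ 2 := by positivity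
  simp only [Function.comp] at h4
  push_cast at h4
  rw [Real.log_pow, div_le_iff₀ h5] at h4
  exact_mod_cast h4

private theorem arith {m n P Q : ℕ} (hm : 1 ≤ m) (hn : 1 ≤ n) (h : Q * n ^ 2 = P * m ^ 2) :
    ∃ u : ℕ, P = (n / Nat.gcd m n) ^ 2 * u ∧ Q = (m / Nat.gcd m n) ^ 2 * u := by
  have hg : 0 < Nat.gcd m n := Nat.gcd_pos_of_pos_left n hm
  obtain ⟨m', n', hco, h1, h2⟩ := Nat.exists_coprime m n
  rw [Nat.div_eq_of_eq_mul_left hg h1, Nat.div_eq_of_eq_mul_left hg h2]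
  generalize Nat.gcd m n = g at hg h1 h2
  subst h1 h2
  have hn' : 0 < n' := Nat.pos_of_ne_zero fun h0 => by subst h0; omega
  have h3 : Q * n' ^ 2 = P * m' ^ 2 := by
    have h4 : (Q * n' ^ 2) * g ^ 2 = (P * m' ^ 2) * g ^ 2 := by linarith [h, mul_pow n' g 2, mul_pow m' g 2]
    exact Nat.eq_of_mul_eq_mul_right (by positivity) h4
  have h5 : n' ^ 2 ∣ P := by
    have h6 : n' ^ 2 ∣ P * m' ^ 2 := ⟨Q, by rw [← h3, mul_comm]⟩
    exact (Nat.Coprime.pow 2 2 hco.symm).dvd_of_dvd_mul_right h6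
  obtain ⟨u, hu⟩ := h5
  refine ⟨u, hu, ?_⟩
  have h7 : Q * n' ^ 2 = (m' ^ 2 * u) * n' ^ 2 := by rw [h3, hu]; ring
  exact Nat.eq_of_mul_eq_mul_right (by positivity) h7

/-- For every `ε > 0` there is `n₀` such that for all `n ≥ n₀` and all `m ≥ 1` with `m ≠ n` and `r m = r n`:
`(2 - ε) log n ≤ gcd(m, n)^2`, `gcd(m, n) ≤ |m - n| ≤ n^(1/6+ε)`, and for one natural number `u` both
`π(n^2) = (n / gcd(m, n))^2 u` and `π(m^2) = (m / gcd(m, n))^2 u`. -/
theorem result : ∀ ε : ℝ, 0 < ε → ∃ n₀ : ℕ, ∀ n : ℕ, n₀ ≤ n → ∀ m : ℕ, 1 ≤ m → m ≠ n → r m = r n →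
    (2 - ε) * Real.log n ≤ (Nat.gcd m n : ℝ) ^ 2 ∧ (Nat.gcd m n : ℝ) ≤ |(m : ℝ) - n| ∧
    |(m : ℝ) - n| ≤ (n : ℝ) ^ (1 / 6 + ε) ∧
    ∃ u : ℕ, Nat.primeCounting (n ^ 2) = (n / Nat.gcd m n) ^ 2 * u ∧
      Nat.primeCounting (m ^ 2) = (m / Nat.gcd m n) ^ 2 * u := by
  intro ε hε
  obtain ⟨n₁, h1⟩ := Pool.Agent.Lib.H31P.winF ε hε
  obtain ⟨n₂, h2⟩ := Pool.Agent.Lib.H31W.small_m n₁
  obtain ⟨n₃, h3⟩ := pnt_upper (half_pos hε)
  refine ⟨max (max n₁ n₂) (max n₃ 2), fun n hn m hm hmn hr => ?_⟩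
  have hn1 : n₁ ≤ n := (le_max_left _ _).trans ((le_max_left _ _).trans hn)
  have hn2 : n₂ ≤ n := (le_max_right _ _).trans ((le_max_left _ _).trans hn)
  have hn3 : n₃ ≤ n := (le_max_left _ _).trans ((le_max_right _ _).trans hn)
  have hn4 : 2 ≤ n := (le_max_right _ _).trans ((le_max_right _ _).trans hn)
  have hr' : Pool.Agent.Lib.H31W.r m = Pool.Agent.Lib.H31W.r n := hr
  have hrn : 0 < r n := r_pos' hn4
  have hmbig : n₁ ≤ m := by
    by_contra hlt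
    push Not at hlt
    rcases Nat.eq_or_lt_of_le hm with h | h
    · have h5 : r 1 = 0 := by
        have h6 : Nat.primeCounting (1 ^ 2) = 0 := by decide
        unfold r
        rw [h6]
        simp
      rw [← h, h5] at hr
      exact hrn.ne hr
    · exact absurd hr' (h2 n hn2 m h hlt).ne'
  have hdist : |(m : ℝ) - n| ≤ (n : ℝ) ^ (1 / 6 + ε) := by
    rcases lt_or_gt_of_ne hmn with h | h
    · have h4 : ¬ ((m : ℝ) + (m : ℝ) ^ (1 / 6 + ε) ≤ n) :=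
        fun h5 => absurd hr' (h1 m n hmbig h5).ne'
      push Not at h4
      have h6 : (m : ℝ) < n := by exact_mod_cast h
      have h5 : (m : ℝ) ^ (1 / 6 + ε) ≤ (n : ℝ) ^ (1 / 6 + ε) :=
        Real.rpow_le_rpow (Nat.cast_nonneg _) h6.le (by positivity)
      rw [abs_of_neg (by linarith)]
      linarith
    · have h4 : ¬ ((n : ℝ) + (n : ℝ) ^ (1 / 6 + ε) ≤ m) :=
        fun h5 => absurd hr' (h1 n m hn1 h5).ne
      push Not at h4
      have h6 : (n : ℝ) < m := by exact_mod_cast h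
      rw [abs_of_pos (by linarith)]
      linarith
  have hgd : (Nat.gcd m n : ℝ) ≤ |(m : ℝ) - n| := by
    have h4 : (Nat.gcd m n : ℤ) ∣ (m : ℤ) - n :=
      dvd_sub (Int.natCast_dvd_natCast.2 (Nat.gcd_dvd_left m n))
        (Int.natCast_dvd_natCast.2 (Nat.gcd_dvd_right m n))
    have h5 : (m : ℤ) - n ≠ 0 := sub_ne_zero.2 (by exact_mod_cast hmn)
    have h6 : (Nat.gcd m n : ℤ) ≤ |(m : ℤ) - n| :=
      Int.le_of_dvd (abs_pos.2 h5) ((dvd_abs _ _).2 h4)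
    have h7 : ((Nat.gcd m n : ℤ) : ℝ) ≤ ((|(m : ℤ) - n| : ℤ) : ℝ) := Int.cast_le.2 h6
    push_cast at h7
    exact_mod_cast h7
  have hn0 : (0 : ℝ) < n := by exact_mod_cast (by omega : 0 < n)
  have hm0 : (0 : ℝ) < m := by exact_mod_cast hm
  have hcross : Nat.primeCounting (m ^ 2) * n ^ 2 = Nat.primeCounting (n ^ 2) * m ^ 2 := by
    have h4 : (Nat.primeCounting (m ^ 2) : ℝ) * (n : ℝ) ^ 2 =
        (Nat.primeCounting (n ^ 2) : ℝ) * (m : ℝ) ^ 2 := by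
      unfold r at hr
      rwa [div_eq_div_iff (by positivity) (by positivity)] at hr
    exact_mod_cast h4
  obtain ⟨u, hu1, hu2⟩ := arith hm (by omega) hcross
  refine ⟨?_, hgd, hdist, u, hu1, hu2⟩
  have hP : 0 < Nat.primeCounting (n ^ 2) := pi_pos' hn4
  have hu0 : 1 ≤ u := Nat.one_le_iff_ne_zero.2 fun h0 => by
    rw [h0, mul_zero] at hu1
    omega
  have hg : n / Nat.gcd m n * Nat.gcd m n = n := Nat.div_mul_cancel (Nat.gcd_dvd_right m n)
  have h8 : n ^ 2 ≤ Nat.gcd m n ^ 2 * Nat.primeCounting (n ^ 2) := by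
    have h9 : (n / Nat.gcd m n) ^ 2 ≤ Nat.primeCounting (n ^ 2) := by
      rw [hu1]
      exact Nat.le_mul_of_pos_right _ hu0
    calc n ^ 2 = Nat.gcd m n ^ 2 * (n / Nat.gcd m n) ^ 2 := by
          rw [← mul_pow, mul_comm (Nat.gcd m n), hg]
      _ ≤ Nat.gcd m n ^ 2 * Nat.primeCounting (n ^ 2) := Nat.mul_le_mul_left _ h9
  have h8' : (n : ℝ) ^ 2 ≤ (Nat.gcd m n : ℝ) ^ 2 * (Nat.primeCounting (n ^ 2) : ℝ) := by
    exact_mod_cast h8
  have h10 := h3 n hn3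
  have hPR : (0 : ℝ) < (Nat.primeCounting (n ^ 2) : ℝ) := by exact_mod_cast hP
  have hG : (0 : ℝ) ≤ (Nat.gcd m n : ℝ) ^ 2 := by positivity
  have h11 : (Nat.primeCounting (n ^ 2) : ℝ) * (2 * Real.log n) ≤
      (Nat.primeCounting (n ^ 2) : ℝ) * ((1 + ε / 2) * (Nat.gcd m n : ℝ) ^ 2) := by
    calc (Nat.primeCounting (n ^ 2) : ℝ) * (2 * Real.log n) ≤ (1 + ε / 2) * (n : ℝ) ^ 2 := h10
      _ ≤ (1 + ε / 2) * ((Nat.gcd m n : ℝ) ^ 2 * (Nat.primeCounting (n ^ 2) : ℝ)) :=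
          mul_le_mul_of_nonneg_left h8' (by positivity)
      _ = _ := by ring
  have h12 : 2 * Real.log n ≤ (1 + ε / 2) * (Nat.gcd m n : ℝ) ^ 2 := le_of_mul_le_mul_left h11 hPR
  have hlog : 0 ≤ Real.log n := Real.log_natCast_nonneg n
  rcases le_total (2 - ε) 0 with h13 | h13
  · exact (mul_nonpos_of_nonpos_of_nonneg h13 hlog).trans hG
  · have h14 : (2 - ε) * (2 * Real.log n) ≤ (2 - ε) * ((1 + ε / 2) * (Nat.gcd m n : ℝ) ^ 2) :=
      mul_le_mul_of_nonneg_left h12 h13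
    have h15 : (2 - ε) * ((1 + ε / 2) * (Nat.gcd m n : ℝ) ^ 2) ≤ 2 * (Nat.gcd m n : ℝ) ^ 2 := by
      nlinarith [mul_nonneg (sq_nonneg ε) hG]
    linarith

end Pool.Agent.Results.MP_da1588_nt.DivisorCriterion
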