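import Pool.Agent.Lib.H31P.Fin

/-!
# All but `N^(2/3+ε)` terms of `π(n^2)/n^2` are smaller than all earlier and larger than all later terms

Let `r n = π(n^2)/n^2`. We prove: for every `ε > 0` and all large `N`, all but at most `N^(2/3+ε)` of the
`n ≤ N` satisfy `r m > r n` for all `2 ≤ m < n` and `r n > r l` for all `l > n`.

Method (`Pool/Agent/Lib/H31P`, with `PROOF.md`): Heath-Brown's identity with an arbitrary number of
factors, large values of Dirichlet polynomials (mean value theorem, Halasz-Montgomery-Huxley, the fourth
moment of the zeta function, Weyl's bound), the zero-free region of Vinogradov and Korobov, and Parseval's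
formula against the indicator of the exceptional set, so that moderately large values of the Dirichlet
polynomials cost nothing; the passage to all pairs `m, n` uses only monotonicity.
-/

namespace Pool.Agent.Results.MP_da1588_nt.PowerSaving

/-- `r n = π(n^2)/n^2`, where `π(k)` is the number of primes `p ≤ k`. -/
noncomputable def r (n : ℕ) : ℝ := (Nat.primeCounting (n ^ 2) : ℝ) / (n : ℝ) ^ 2

/-- `n` is good: `r m > r n` for all `m` with `2 ≤ m < n`, and `r n > r l` for all `l > n`. -/
def Good (n : ℕ) : Prop := (∀ m : ℕ, 2 ≤ m → m < n → r n < r m) ∧ ∀ l : ℕ, n < l → r l < r n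

open Classical in
/-- For every `ε > 0` and all large `N` at most `N^(2/3+ε)` of the `n` with `1 ≤ n ≤ N` are not good. -/
theorem result : ∀ ε : ℝ, 0 < ε → ∃ N₀ : ℕ, ∀ N : ℕ, N₀ ≤ N →
    (((Finset.Icc 1 N).filter (fun n => ¬ Good n)).card : ℝ) ≤ (N : ℝ) ^ (2 / 3 + ε) :=
  Pool.Agent.Lib.H31P.goodF

end Pool.Agent.Results.MP_da1588_nt.PowerSaving
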